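import Mathlib
import Pool.Agent.Helper35.AG.Arcs

/-!
# An effective Rudolph-Johnson inequality: definitions

`T m r x` is the average of the characters `e (m 3 ^ b x)`, `b < 2 ^ r`,
`Q D r x = 2 ^ (-r) + ∑_{1 ≤ m ≤ D} |T m r x| ^ 2`, and `R D r L k x` is the product of the
`Q D r (2 ^ (L i) x)`, `i < k`.
-/

set_option autoImplicit false
open MeasureTheory Finset Filter

namespace Helper66.ER

export Helper35.AG (Tor idx ent Inv)

/-- the average of the characters `m 3 ^ b`, `b < 2 ^ r` -/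
noncomputable def T (m : ℤ) (r : ℕ) (x : Tor) : ℂ :=
  (∑ b ∈ range (2 ^ r), (fourier (m * 3 ^ b) x : ℂ)) / 2 ^ r

/-- the test function -/
noncomputable def Q (D r : ℕ) (x : Tor) : ℝ :=
  1 / 2 ^ r + ∑ m ∈ Icc 1 D, ‖T (m : ℤ) r x‖ ^ 2

/-- the product of the test functions over `k` levels -/
noncomputable def R (D r L k : ℕ) (x : Tor) : ℝ :=
  ∏ i ∈ range k, Q D r ((2 ^ (L * i) : ℕ) • x)

theorem continuous_T (m : ℤ) (r : ℕ) : Continuous (T m r) := by
  unfold T
  fun_prop

theorem continuous_Q (D r : ℕ) : Continuous (Q D r) := by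
  unfold Q
  refine continuous_const.add (continuous_finsetSum _ fun m _ => ?_)
  exact (continuous_T m r).norm.pow 2

theorem continuous_R (D r L k : ℕ) : Continuous (R D r L k) := by
  unfold R
  refine continuous_finsetProd _ fun i _ => ?_
  exact (continuous_Q D r).comp (continuous_const_smul _)

theorem norm_fourier_eq_one (n : ℤ) (x : Tor) : ‖(fourier n x : ℂ)‖ = 1 := by
  rw [fourier_apply]
  exact Circle.norm_coe _

theorem norm_T_le (m : ℤ) (r : ℕ) (x : Tor) : ‖T m r x‖ ≤ 1 := by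
  unfold T
  have h2 : (0 : ℝ) < 2 ^ r := by positivity
  rw [norm_div, norm_pow, Complex.norm_ofNat, div_le_one h2]
  refine (norm_sum_le _ _).trans ?_
  rw [Finset.sum_congr rfl fun b _ => norm_fourier_eq_one (m * 3 ^ b) x]
  simp

theorem Q_ge (D r : ℕ) (x : Tor) : 1 / 2 ^ r ≤ Q D r x := by
  unfold Q
  have : 0 ≤ ∑ m ∈ Icc 1 D, ‖T (m : ℤ) r x‖ ^ 2 := Finset.sum_nonneg fun m _ => by positivity
  linarith

theorem Q_pos (D r : ℕ) (x : Tor) : 0 < Q D r x :=
  lt_of_lt_of_le (by positivity) (Q_ge D r x)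

theorem R_pos (D r L k : ℕ) (x : Tor) : 0 < R D r L k x :=
  Finset.prod_pos fun _ _ => Q_pos _ _ _

theorem log_R (D r L k : ℕ) (x : Tor) :
    Real.log (R D r L k x) = ∑ i ∈ range k, Real.log (Q D r ((2 ^ (L * i) : ℕ) • x)) := by
  unfold R
  exact Real.log_prod fun i _ => (Q_pos _ _ _).ne'

end Helper66.ER
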