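import Mathlib
import Pool.Agent.Helper66.ER.Basic
import Pool.Agent.Helper17.TranslM

/-!
# Averages of trigonometric polynomials
-/

set_option autoImplicit false
open MeasureTheory Finset Filter
open scoped ComplexConjugate

namespace Helper66.ER

/-- the trigonometric polynomial with coefficients `c m`, `|m| ≤ D` -/
noncomputable def poly (D : ℕ) (c : ℤ → ℂ) (x : Tor) : ℂ :=
  ∑ m ∈ Icc (-(D : ℤ)) D, c m * (fourier m x : ℂ)

/-- its average over the points `3 ^ b x`, `b < 2 ^ r` -/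
noncomputable def avg (D : ℕ) (c : ℤ → ℂ) (r : ℕ) (x : Tor) : ℂ :=
  (∑ b ∈ range (2 ^ r), poly D c ((3 ^ b : ℕ) • x)) / 2 ^ r

theorem continuous_poly (D : ℕ) (c : ℤ → ℂ) : Continuous (poly D c) := by
  unfold poly
  fun_prop

theorem continuous_avg (D : ℕ) (c : ℤ → ℂ) (r : ℕ) : Continuous (avg D c r) := by
  unfold avg
  refine Continuous.div_const (continuous_finsetSum _ fun b _ => ?_) _
  exact (continuous_poly D c).comp (continuous_const_smul _)

theorem fourier_mul_conj (m n : ℤ) (x : Tor) :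
    (fourier m x : ℂ) * conj (fourier n x : ℂ) = fourier (m - n) x := by
  rw [← fourier_neg, ← fourier_add, sub_eq_add_neg]

theorem fourier_nsmul (m : ℤ) (s : ℕ) (x : Tor) :
    (fourier m (s • x) : ℂ) = fourier (m * s) x := by
  simp only [fourier_apply]
  congr 1
  congr 1
  rw [← natCast_zsmul, smul_smul]

theorem parseval (D : ℕ) (c : ℤ → ℂ) (h : ∀ x, ‖poly D c x‖ ≤ 1) :
    ∑ m ∈ Icc (-(D : ℤ)) D, ‖c m‖ ^ 2 ≤ 1 := by
  have e1 : ∀ x : Tor, ((‖poly D c x‖ ^ 2 : ℝ) : ℂ) = ∑ m ∈ Icc (-(D : ℤ)) D,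
      ∑ n ∈ Icc (-(D : ℤ)) D, c m * conj (c n) * (fourier (m - n) x : ℂ) := by
    intro x
    rw [← Complex.normSq_eq_norm_sq, ← Complex.mul_conj]
    unfold poly
    rw [map_sum, Finset.sum_mul_sum]
    refine Finset.sum_congr rfl fun m _ => Finset.sum_congr rfl fun n _ => ?_
    rw [map_mul, ← fourier_mul_conj]
    ring
  have e2 : ((∫ x : Tor, ‖poly D c x‖ ^ 2 : ℝ) : ℂ) =
      ∑ m ∈ Icc (-(D : ℤ)) D, ((‖c m‖ ^ 2 : ℝ) : ℂ) := by
    rw [← integral_complex_ofReal]
    simp_rw [e1]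
    rw [integral_finsetSum _ fun m _ => ?_]
    swap
    · refine Continuous.integrable_of_hasCompactSupport (by fun_prop)
        (HasCompactSupport.of_compactSpace _)
    refine Finset.sum_congr rfl fun m hm => ?_
    rw [integral_finsetSum _ fun n _ => ?_]
    swap
    · refine Continuous.integrable_of_hasCompactSupport (by fun_prop)
        (HasCompactSupport.of_compactSpace _)
    rw [Finset.sum_eq_single m]
    · rw [integral_const_mul, sub_self]
      have : ∫ x : Tor, (fourier 0 x : ℂ) = 1 := by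
        simp
      rw [this, mul_one, Complex.mul_conj, Complex.normSq_eq_norm_sq]
    · intro n _ hn
      rw [integral_const_mul, Helper17.TranslM.integral_fourier_vol (sub_ne_zero.2 hn.symm),
        mul_zero]
    · exact fun h => absurd hm h
  have e3 : ∫ x : Tor, ‖poly D c x‖ ^ 2 = ∑ m ∈ Icc (-(D : ℤ)) D, ‖c m‖ ^ 2 := by
    have := e2
    rw [← Complex.ofReal_sum] at this
    exact_mod_cast this
  rw [← e3]
  have hv : (volume : Measure Tor).real Set.univ = 1 := by
    simp [measureReal_def]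
  calc ∫ x : Tor, ‖poly D c x‖ ^ 2 ≤ ∫ x : Tor, (1 : ℝ) := by
        refine integral_mono ?_ (integrable_const _) fun x => ?_
        · exact Continuous.integrable_of_hasCompactSupport ((continuous_poly D c).norm.pow 2)
            (HasCompactSupport.of_compactSpace _)
        · exact pow_le_one₀ (norm_nonneg _) (h x)
    _ = 1 := by
        rw [integral_const, hv, one_smul]

theorem avg_eq (D r : ℕ) (c : ℤ → ℂ) (x : Tor) :
    avg D c r x = ∑ m ∈ Icc (-(D : ℤ)) D, c m * T m r x := by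
  unfold avg poly T
  rw [Finset.sum_comm, Finset.sum_div]
  refine Finset.sum_congr rfl fun m _ => ?_
  rw [← Finset.mul_sum, mul_div_assoc]
  congr 2
  refine Finset.sum_congr rfl fun b _ => ?_
  rw [fourier_nsmul]
  push_cast
  rfl

theorem norm_T_neg (m : ℤ) (r : ℕ) (x : Tor) : ‖T (-m) r x‖ = ‖T m r x‖ := by
  have : T (-m) r x = conj (T m r x) := by
    unfold T
    rw [map_div₀, map_sum, map_pow, Complex.conj_ofNat]
    congr 1
    refine Finset.sum_congr rfl fun b _ => ?_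
    rw [← fourier_neg, neg_mul]
  rw [this, Complex.norm_conj]

theorem sum_symm (D : ℕ) (f : ℤ → ℝ) (hf : ∀ m, f (-m) = f m) :
    ∑ m ∈ (Icc (-(D : ℤ)) D).erase 0, f m = 2 * ∑ m ∈ Icc 1 D, f (m : ℤ) := by
  induction D with
  | zero => simp
  | succ D ih =>
    have e : (Icc (-((D + 1 : ℕ) : ℤ)) ((D + 1 : ℕ) : ℤ)).erase 0 =
        insert ((D : ℤ) + 1) (insert (-((D : ℤ) + 1)) ((Icc (-(D : ℤ)) D).erase 0)) := by
      ext m
      simp only [Finset.mem_erase, Finset.mem_Icc, Finset.mem_insert]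
      push_cast
      omega
    rw [e, Finset.sum_insert, Finset.sum_insert, ih, Finset.sum_Icc_succ_top (by omega), hf]
    · push_cast
      ring
    · simp only [Finset.mem_erase, Finset.mem_Icc]
      omega
    · simp only [Finset.mem_erase, Finset.mem_Icc, Finset.mem_insert]
      omega

theorem norm_avg_sq_le (D r : ℕ) (c : ℤ → ℂ) (h0 : c 0 = 0) (h : ∀ x, ‖poly D c x‖ ≤ 1)
    (x : Tor) : ‖avg D c r x‖ ^ 2 ≤ 2 * ∑ m ∈ Icc 1 D, ‖T (m : ℤ) r x‖ ^ 2 := by
  have hp := parseval D c h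
  have e0 : (0 : ℤ) ∈ Icc (-(D : ℤ)) D := by
    simp
  have e1 : avg D c r x = ∑ m ∈ (Icc (-(D : ℤ)) D).erase 0, c m * T m r x := by
    rw [avg_eq, ← Finset.add_sum_erase _ _ e0, h0, zero_mul, zero_add]
  have e2 := sum_symm D (fun m => ‖T m r x‖ ^ 2) fun m => by
    show ‖T (-m) r x‖ ^ 2 = ‖T m r x‖ ^ 2
    rw [norm_T_neg]
  rw [← e2, e1]
  have h1 : ‖∑ m ∈ (Icc (-(D : ℤ)) D).erase 0, c m * T m r x‖ ≤
      ∑ m ∈ (Icc (-(D : ℤ)) D).erase 0, ‖c m‖ * ‖T m r x‖ := by
    refine (norm_sum_le _ _).trans (le_of_eq ?_)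
    exact Finset.sum_congr rfl fun m _ => norm_mul _ _
  calc ‖∑ m ∈ (Icc (-(D : ℤ)) D).erase 0, c m * T m r x‖ ^ 2
      ≤ (∑ m ∈ (Icc (-(D : ℤ)) D).erase 0, ‖c m‖ * ‖T m r x‖) ^ 2 := by
        gcongr
    _ ≤ (∑ m ∈ (Icc (-(D : ℤ)) D).erase 0, ‖c m‖ ^ 2) *
        ∑ m ∈ (Icc (-(D : ℤ)) D).erase 0, ‖T m r x‖ ^ 2 :=
        Finset.sum_mul_sq_le_sq_mul_sq _ _ _
    _ ≤ 1 * ∑ m ∈ (Icc (-(D : ℤ)) D).erase 0, ‖T m r x‖ ^ 2 := by
        gcongr
        refine le_trans (Finset.sum_le_sum_of_subset_of_nonneg (Finset.erase_subset _ _) ?_) hp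
        exact fun m _ _ => by positivity
    _ = _ := one_mul _

theorem norm_avg_le (D r : ℕ) (c : ℤ → ℂ) (h : ∀ x, ‖poly D c x‖ ≤ 1) (x : Tor) :
    ‖avg D c r x‖ ≤ 1 := by
  unfold avg
  have h2 : (0 : ℝ) < 2 ^ r := by positivity
  rw [norm_div, norm_pow, Complex.norm_ofNat, div_le_one h2]
  refine (norm_sum_le _ _).trans ?_
  refine (Finset.sum_le_sum fun b _ => h _).trans (le_of_eq ?_)
  simp

theorem neg_log_le {L t S : ℝ} (ht0 : 0 ≤ t) (ht1 : t ≤ 1) (hS : t ^ 2 ≤ 2 * S) :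
    -Real.log (Real.exp (-L) + S) ≤ (1 - t) * L + 2 := by
  have hS0 : 0 ≤ S := by nlinarith [sq_nonneg t]
  rcases le_or_gt (L * t) 2 with h | h
  · have h1 : -L ≤ Real.log (Real.exp (-L) + S) := by
      rw [Real.le_log_iff_exp_le (by positivity)]
      linarith
    nlinarith
  · have ht : 0 < t := by
      rcases eq_or_lt_of_le ht0 with h' | h'
      · rw [← h'] at h
        norm_num at h
      · exact h'
    have h1 : Real.log (t ^ 2 / 2) ≤ Real.log (Real.exp (-L) + S) := by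
      refine Real.log_le_log (by positivity) ?_
      have := Real.exp_pos (-L)
      linarith
    have h2 : Real.log (t ^ 2 / 2) = 2 * Real.log t - Real.log 2 := by
      rw [Real.log_div (by positivity) (by norm_num), Real.log_pow]
      norm_num
    have h3 : -Real.log t ≤ 1 / t - 1 := by
      have := Real.log_le_sub_one_of_pos (show (0 : ℝ) < 1 / t by positivity)
      rwa [Real.log_div one_ne_zero ht.ne', Real.log_one, zero_sub] at this
    have h4 : 2 * (1 / t - 1) ≤ (1 - t) * L := by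
      have h5 : 2 / t ≤ L := by
        rw [div_le_iff₀ ht]
        exact h.le
      have h6 : 2 * (1 / t - 1) = (1 - t) * (2 / t) := by
        field_simp
      rw [h6]
      exact mul_le_mul_of_nonneg_left h5 (by linarith)
    have h7 : Real.log 2 < 1 := by
      have := Real.log_two_lt_d9
      linarith
    linarith

theorem neg_log_Q_le (D r : ℕ) (c : ℤ → ℂ) (h0 : c 0 = 0) (h : ∀ x, ‖poly D c x‖ ≤ 1) (x : Tor) :
    -Real.log (Q D r x) ≤ (1 - ‖avg D c r x‖) * (r * Real.log 2) + 2 := by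
  have h1 := neg_log_le (L := r * Real.log 2) (t := ‖avg D c r x‖)
    (S := ∑ m ∈ Icc 1 D, ‖T (m : ℤ) r x‖ ^ 2)
    (norm_nonneg _) (norm_avg_le D r c h x) (norm_avg_sq_le D r c h0 h x)
  have e : Real.exp (-(r * Real.log 2)) = 1 / 2 ^ r := by
    rw [Real.exp_neg, ← Real.log_pow, Real.exp_log (by positivity), one_div]
  rw [e] at h1
  exact h1

theorem mp_pow {μ : Measure Tor} {s : ℕ}
    (h : MeasurePreserving (fun x : Tor => s • x) μ μ) (n : ℕ) :
    MeasurePreserving (fun x : Tor => (s ^ n : ℕ) • x) μ μ := by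
  induction n with
  | zero =>
    have : (fun x : Tor => (s ^ 0 : ℕ) • x) = id := by
      funext x
      simp
    rw [this]
    exact MeasurePreserving.id μ
  | succ n ih =>
    have : (fun x : Tor => (s ^ (n + 1) : ℕ) • x) =
        (fun x : Tor => (s ^ n : ℕ) • x) ∘ fun x : Tor => s • x := by
      funext x
      simp only [Function.comp_apply]
      rw [smul_smul, pow_succ]
    rw [this]
    exact ih.comp h

theorem integral_comp {μ : Measure Tor} [IsProbabilityMeasure μ] {s : ℕ}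
    (h : MeasurePreserving (fun x : Tor => s • x) μ μ) {E : Type*} [NormedAddCommGroup E]
    [NormedSpace ℝ E] (F : Tor → E) (hF : Continuous F) :
    ∫ x, F (s • x) ∂μ = ∫ x, F x ∂μ := by
  conv_rhs => rw [← h.map_eq]
  rw [integral_map h.measurable.aemeasurable]
  rw [h.map_eq]
  exact hF.aestronglyMeasurable

theorem le_integral_avg {μ : Measure Tor} [IsProbabilityMeasure μ] (hμ : Inv μ) (D r a : ℕ)
    (c : ℤ → ℂ) :
    ‖∫ x, poly D c x ∂μ‖ ≤ ∫ x, ‖avg D c r ((2 ^ a : ℕ) • x)‖ ∂μ := by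
  have h2 := mp_pow hμ.two a
  have e1 : ∫ x, ‖avg D c r ((2 ^ a : ℕ) • x)‖ ∂μ = ∫ x, ‖avg D c r x‖ ∂μ :=
    integral_comp h2 (fun x => ‖avg D c r x‖) (continuous_avg D c r).norm
  rw [e1]
  refine le_trans (le_of_eq ?_) (norm_integral_le_integral_norm _)
  congr 1
  unfold avg
  rw [integral_div, integral_finsetSum _ fun b _ => ?_]
  swap
  · exact Continuous.integrable_of_hasCompactSupport
      ((continuous_poly D c).comp (continuous_const_smul _)) (HasCompactSupport.of_compactSpace _)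
  rw [Finset.sum_congr rfl fun b _ => integral_comp (mp_pow hμ.three b) (poly D c)
    (continuous_poly D c)]
  rw [Finset.sum_const, Finset.card_range, nsmul_eq_mul]
  push_cast
  field_simp

end Helper66.ER
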