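import Mathlib
import Pool.Agent.Helper66.ER.Mean
import Pool.Agent.Helper28.ER.Gibbs
import Pool.Agent.Helper28.ER.Osc
import Pool.Agent.Helper36.ER.Leb

/-!
# The effective inequality
-/

set_option autoImplicit false
open MeasureTheory Finset Filter

namespace Helper66.ER

theorem integrable_of_cont {μ : Measure Tor} [IsProbabilityMeasure μ] {F : Tor → ℝ}
    (hF : Continuous F) : Integrable F μ :=
  hF.integrable_of_hasCompactSupport (HasCompactSupport.of_compactSpace _)

theorem continuous_logQ (D r s : ℕ) : Continuous fun x : Tor => Real.log (Q D r (s • x)) :=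
  ((continuous_Q D r).comp (continuous_const_smul _)).log fun _ => (Q_pos _ _ _).ne'

/-- the inequality for a given number of levels, from a bound for the mean of `-log Q` -/
theorem core {μ : Measure Tor} [IsProbabilityMeasure μ] (D r u k K : ℕ)
    (hD : D ≤ 2 ^ u) (hK : (r + 2 + u) * k + 2 * 2 ^ r + u + 3 ≤ K) (B : ℝ)
    (hB : ∀ i : ℕ, -∫ x, Real.log (Q D r ((2 ^ i : ℕ) • x)) ∂μ ≤ B) :
    ent μ K ≤ K * Real.log 2 + k * (Real.log (D + 1) - r * Real.log 2 + B) + 1 := by
  have h1 := ent_le_gibbs (μ := μ) K (R D r (r + 2 + u) k) (continuous_R _ _ _ _)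
    (fun x => R_pos _ _ _ _ x) 1 (fun x y h => osc D r u k K hD hK x y h)
  rw [Helper36.ERB.integral_R D r u k hD] at h1
  have e1 : Real.log ((((D : ℝ) + 1) / 2 ^ r) ^ k) = k * (Real.log (D + 1) - r * Real.log 2) := by
    rw [Real.log_pow, Real.log_div (by positivity) (by positivity), Real.log_pow]
  have e2 : ∫ x, Real.log (R D r (r + 2 + u) k x) ∂μ =
      ∑ i ∈ range k, ∫ x, Real.log (Q D r ((2 ^ ((r + 2 + u) * i) : ℕ) • x)) ∂μ := by
    simp_rw [log_R]
    rw [integral_finsetSum]
    exact fun i _ => integrable_of_cont (continuous_logQ _ _ _)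
  have h2 : -∫ x, Real.log (R D r (r + 2 + u) k x) ∂μ ≤ k * B := by
    rw [e2, ← Finset.sum_neg_distrib]
    refine (Finset.sum_le_sum fun i _ => hB _).trans (le_of_eq ?_)
    rw [Finset.sum_const, Finset.card_range, nsmul_eq_mul]
  rw [e1] at h1
  linarith

theorem ent_le_trivial {μ : Measure Tor} [IsProbabilityMeasure μ] (K : ℕ) :
    ent μ K ≤ K * Real.log 2 := by
  have h := ent_le_gibbs (μ := μ) K (fun _ => 1) continuous_const (fun _ => one_pos) 0
    (fun x y _ => by simp)
  simpa using h

/-- the choice of the parameters -/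
theorem numbers {H : ℝ} (D K : ℕ) (hD : 1 ≤ D) (hK : 2 ≤ K) (c B : ℝ) (hc0 : 0 ≤ c) (hc1 : c ≤ 1)
    (hB : 0 ≤ B) (htriv : H ≤ K * Real.log 2)
    (h : ∀ u k : ℕ, D ≤ 2 ^ u → (Nat.log 2 K / 2 + 2 + u) * k + 2 * 2 ^ (Nat.log 2 K / 2) + u + 3 ≤ K →
      H ≤ K * Real.log 2 + k * (Real.log (D + 1) - (Nat.log 2 K / 2 : ℕ) * Real.log 2 +
        ((1 - c) * ((Nat.log 2 K / 2 : ℕ) * Real.log 2) + B)) + 1) :
    H ≤ (1 - c) * (K * Real.log 2) + 20 * (1 + Real.log D) * (K / Real.log K) ∨
    H ≤ (1 - c) * (K * Real.log 2) + 5 * (1 + Real.log D + B) * (K / Real.log K) := by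
  have hl2 : Real.log 2 < 0.6931471808 := Real.log_two_lt_d9
  have hl2' : 0.6931471803 < Real.log 2 := Real.log_two_gt_d9
  have hK0 : (0 : ℝ) < K := by positivity
  have hK2 : (2 : ℝ) ≤ K := by exact_mod_cast hK
  have hlK : 0 < Real.log K := Real.log_pos (by linarith)
  have hd0 : 0 ≤ Real.log D := Real.log_nonneg (by exact_mod_cast hD)
  rcases le_or_gt (Real.log K) (20 * (1 + Real.log D)) with hs | hs
  · left
    have h1 : (K : ℝ) ≤ 20 * (1 + Real.log D) * (K / Real.log K) := by
      rw [← mul_div_assoc, le_div_iff₀ hlK, mul_comm]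
      exact mul_le_mul_of_nonneg_right hs hK0.le
    have h2 : 0 ≤ (1 - c) * (K * Real.log 2) := by
      refine mul_nonneg (by linarith) (by positivity)
    have h3 : K * Real.log 2 ≤ K := by nlinarith only [hl2, hK0]
    linarith
  · right
    set a := Nat.log 2 K with ha
    set r := a / 2 with hr
    set u := Nat.clog 2 D with hu
    set ℓ := Real.log K with hℓ
    set d := Real.log D with hd
    have hDu : D ≤ 2 ^ u := Nat.le_pow_clog (by norm_num) D
    -- bounds for `u`
    have hu1 : u * Real.log 2 ≤ d + Real.log 2 := by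
      rcases Nat.eq_zero_or_pos u with h0 | h0
      · rw [h0]
        push_cast
        linarith
      · have h1 : 2 ^ (u - 1) < D := Nat.pow_pred_clog_lt_self (by norm_num) (by
          by_contra hcon
          have : D ≤ 1 := by omega
          have h2 : u = 0 := by
            rw [hu]
            exact Nat.clog_of_right_le_one this 2
          omega)
        have h2 : ((u - 1 : ℕ) : ℝ) * Real.log 2 ≤ d := by
          rw [← Real.log_pow, hd]
          refine Real.log_le_log (by positivity) ?_
          exact_mod_cast h1.le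
        rw [Nat.cast_sub h0] at h2
        push_cast at h2
        linarith
    -- bounds for `r`
    have ha1 : 2 ^ a ≤ K := Nat.pow_log_le_self 2 (by omega)
    have ha2 : K < 2 ^ (a + 1) := Nat.lt_pow_succ_log_self (by norm_num) K
    have ha3 : (a : ℝ) * Real.log 2 ≤ ℓ := by
      rw [← Real.log_pow, hℓ]
      refine Real.log_le_log (by positivity) ?_
      exact_mod_cast ha1
    have ha4 : ℓ ≤ ((a : ℝ) + 1) * Real.log 2 := by
      have : ((a : ℝ) + 1) * Real.log 2 = Real.log ((2 : ℝ) ^ (a + 1)) := by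
        rw [Real.log_pow]
        push_cast
        ring
      rw [this, hℓ]
      refine Real.log_le_log hK0 ?_
      exact_mod_cast ha2.le
    have hr1 : 2 * (r : ℝ) ≤ a := by
      have : 2 * r ≤ a := by omega
      exact_mod_cast this
    have hr2 : (a : ℝ) ≤ 2 * r + 1 := by
      have : a ≤ 2 * r + 1 := by omega
      exact_mod_cast this
    have hrK : ((2 : ℝ) ^ r) ^ 2 ≤ K := by
      rw [← pow_mul]
      have h1 : (2 : ℝ) ^ (r * 2) ≤ 2 ^ a := pow_le_pow_right₀ (by norm_num) (by omega)
      refine h1.trans ?_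
      exact_mod_cast ha1
    -- `ℓ ≥ 20`
    have hℓ20 : 20 < ℓ := by linarith only [hs, hd0]
    -- growth
    have hsq : ℓ ≤ Real.sqrt K / 37 := by
      have e : Real.sqrt K = Real.exp (ℓ / 2) := by
        rw [Real.sqrt_eq_iff_mul_self_eq hK0.le (Real.exp_pos _).le, ← Real.exp_add, add_halves,
          hℓ, Real.exp_log hK0]
      rw [e]
      have h1 := Real.pow_div_factorial_le_exp (ℓ / 2) (by linarith only [hℓ20]) 5
      have h2 : (Nat.factorial 5 : ℝ) = 120 := by norm_num [Nat.factorial]
      rw [h2] at h1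
      have h3 : (20 : ℝ) ^ 4 ≤ ℓ ^ 4 := by gcongr
      have h4 : (ℓ / 2) ^ 5 / 120 = ℓ ^ 4 * ℓ / 3840 := by ring
      rw [h4] at h1
      have h5 : (20 : ℝ) ^ 4 * ℓ ≤ ℓ ^ 4 * ℓ := by gcongr
      linarith only [h1, h5, hℓ20]
    have hsq0 : 0 < Real.sqrt K := Real.sqrt_pos.2 hK0
    have hsq2 : Real.sqrt K * Real.sqrt K = K := Real.mul_self_sqrt hK0.le
    have h2r : (2 : ℝ) ^ r ≤ Real.sqrt K := Real.le_sqrt_of_sq_le hrK
    obtain ⟨X, hX⟩ : ∃ X, X = K / ℓ := ⟨_, rfl⟩
    have hXℓ : X * ℓ = K := by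
      rw [hX]
      field_simp
    have hX1 : 37 * Real.sqrt K ≤ X := by
      rw [hX, le_div_iff₀ hlK]
      nlinarith only [hsq, hsq0, hsq2]
    have hX2 : ℓ ≤ X := by linarith
    set P := 2 * 2 ^ r + u + 3 with hP
    set L := r + 2 + u with hL
    have hL0 : 0 < L := by omega
    have hPK : P ≤ K := by
      have h1 : ((P : ℕ) : ℝ) ≤ K := by
        rw [hP]
        push_cast
        have h1 : (u : ℝ) ≤ 2 * d + 1 := by nlinarith only [hu1, hl2', hd0]
        have h2 : 37 * Real.sqrt K ≤ K := by nlinarith only [hX1, hXℓ, hℓ20, hX2]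
        linarith only [h1, h2, h2r, hs, hsq, hsq0, hℓ20]
      exact_mod_cast h1
    set k := (K - P) / L with hk
    have hk1 : L * k ≤ K - P := Nat.mul_div_le _ _
    have hk2 : K - P < L * (k + 1) := Nat.lt_mul_div_succ _ hL0
    have hgoal : L * k + 2 * 2 ^ r + u + 3 ≤ K := by omega
    have key := h u k hDu hgoal
    have hk3 : (L : ℝ) * k ≤ K := by
      have : L * k ≤ K := by omega
      exact_mod_cast this
    have hk4 : (K : ℝ) ≤ P + L * k + L := by
      have : K ≤ P + L * k + L := by
        have := hk2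
        rw [mul_add, mul_one] at this
        omega
      exact_mod_cast this
    have hPr : (P : ℝ) = 2 * 2 ^ r + u + 3 := by rw [hP]; push_cast; ring
    have hLr : (L : ℝ) = r + 2 + u := by rw [hL]; push_cast; ring
    have hk0 : (0 : ℝ) ≤ k := Nat.cast_nonneg k
    have hu0 : (0 : ℝ) ≤ u := Nat.cast_nonneg u
    -- `k ≤ 2 log 2 X`
    have hLℓ : ℓ ≤ 2 * Real.log 2 * L := by
      rw [hLr]
      have h1 : (a : ℝ) * Real.log 2 ≤ (2 * r + 1) * Real.log 2 :=
        mul_le_mul_of_nonneg_right hr2 (by linarith only [hl2'])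
      have h2 : 0 ≤ u * Real.log 2 := mul_nonneg hu0 (by linarith only [hl2'])
      linarith only [h1, h2, ha4, hl2']
    have hk5 : k ≤ 2 * Real.log 2 * X := by
      have h1 : (k : ℝ) * ℓ ≤ 2 * Real.log 2 * K := by
        calc (k : ℝ) * ℓ ≤ k * (2 * Real.log 2 * L) := by gcongr
          _ = 2 * Real.log 2 * (L * k) := by ring
          _ ≤ 2 * Real.log 2 * K := by gcongr
      rw [hX, ← mul_div_assoc, le_div_iff₀ hlK]
      exact h1
    have hlogD : Real.log (D + 1) ≤ d + Real.log 2 := by
      have : Real.log (D + 1) ≤ Real.log (D * 2) := by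
        refine Real.log_le_log (by positivity) ?_
        have : (1 : ℝ) ≤ D := by exact_mod_cast hD
        linarith
      rwa [Real.log_mul (by positivity) (by norm_num)] at this
    -- the main computation
    have e1 : K * Real.log 2 + k * (Real.log (D + 1) - r * Real.log 2 +
        ((1 - c) * (r * Real.log 2) + B)) + 1 =
        K * Real.log 2 - c * (Real.log 2 * (L * k)) +
          k * (Real.log (D + 1) + c * ((u + 2) * Real.log 2) + B) + 1 := by
      rw [hLr]
      ring
    rw [e1] at key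
    have h3 : c * (Real.log 2 * (L * k)) ≥ c * (K * Real.log 2) - Real.log 2 * (P + L) := by
      have h4 : c * (Real.log 2 * (K - P - L)) ≤ c * (Real.log 2 * (L * k)) := by
        gcongr
        linarith
      have h5 : c * (Real.log 2 * (P + L)) ≤ 1 * (Real.log 2 * (P + L)) := by
        gcongr
      linarith only [h4, h5]
    have h6 : c * ((u + 2) * Real.log 2) ≤ d + 3 * Real.log 2 := by
      have : c * ((u + 2) * Real.log 2) ≤ 1 * ((u + 2) * Real.log 2) := by
        gcongr
      linarith only [this, hu1]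
    have h7 : k * (Real.log (D + 1) + c * ((u + 2) * Real.log 2) + B) ≤
        2 * Real.log 2 * X * (2 * d + 4 * Real.log 2 + B) := by
      have h8 : Real.log (D + 1) + c * ((u + 2) * Real.log 2) + B ≤ 2 * d + 4 * Real.log 2 + B := by
        linarith
      have h9 : 0 ≤ 2 * d + 4 * Real.log 2 + B := by positivity
      calc _ ≤ k * (2 * d + 4 * Real.log 2 + B) := by gcongr
        _ ≤ _ := by gcongr
    have h10 : 2 * Real.log 2 * X * (2 * d + 4 * Real.log 2 + B) ≤
        X * (4 + 3 * d + 2 * B) := by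
      have hX0 : 0 < X := by linarith
      have : 2 * Real.log 2 * (2 * d + 4 * Real.log 2 + B) ≤ 4 + 3 * d + 2 * B := by
        have q1 : Real.log 2 * d ≤ 0.6931471808 * d := mul_le_mul_of_nonneg_right hl2.le hd0
        have q2 : Real.log 2 * B ≤ 0.6931471808 * B := mul_le_mul_of_nonneg_right hl2.le hB
        have q3 : Real.log 2 * Real.log 2 ≤ 0.6931471808 * 0.6931471808 := by gcongr
        nlinarith only [q1, q2, q3, hd0, hB]
      calc _ = X * (2 * Real.log 2 * (2 * d + 4 * Real.log 2 + B)) := by ring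
        _ ≤ _ := by gcongr
    have h11 : Real.log 2 * (P + L) + 1 ≤ X := by
      rw [hPr, hLr]
      have h12 : Real.log 2 * (2 * 2 ^ r + u + 3 + (r + 2 + u)) =
          2 * Real.log 2 * 2 ^ r + 2 * (u * Real.log 2) + r * Real.log 2 + 5 * Real.log 2 := by ring
      rw [h12]
      have h13 : r * Real.log 2 ≤ ℓ / 2 := by
        have : 2 * (r : ℝ) * Real.log 2 ≤ a * Real.log 2 :=
          mul_le_mul_of_nonneg_right hr1 (by linarith only [hl2'])
        linarith only [this, ha3]
      have h14 : 2 * Real.log 2 * 2 ^ r ≤ 2 * Real.sqrt K := by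
        have : Real.log 2 * 2 ^ r ≤ 1 * Real.sqrt K := by
          gcongr
          linarith only [hl2]
        linarith only [this]
      linarith only [h13, h14, hu1, hl2, hX1, hX2, hs, hd0, hsq, hℓ20, hsq0]
    rw [← hX]
    have h15 : 5 * (1 + d + B) * X = X * (4 + 3 * d + 2 * B) + X + 2 * (d * X) + 3 * (B * X) := by
      ring
    rw [h15]
    have hX0 : 0 < X := by linarith
    have h16 : 0 ≤ d * X := by positivity
    have h17 : 0 ≤ B * X := by positivity
    linarith only [key, h3, h7, h10, h11, h16, h17]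

end Helper66.ER
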