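import Mathlib
import Pool.Agent.Helper66.ER.Main

/-!
# The effective inequality: the two forms
-/

set_option autoImplicit false
open MeasureTheory Finset Filter

namespace Helper66.ER

theorem norm_integral_poly_le {μ : Measure Tor} [IsProbabilityMeasure μ] (D : ℕ) (c : ℤ → ℂ)
    (h : ∀ x, ‖poly D c x‖ ≤ 1) : ‖∫ x, poly D c x ∂μ‖ ≤ 1 := by
  refine (norm_integral_le_of_norm_le_const (C := 1) (Eventually.of_forall h)).trans ?_
  simp

/-- (A) -/
theorem partA {μ : Measure Tor} [IsProbabilityMeasure μ] (hμ : Inv μ) (D K : ℕ) (hD : 1 ≤ D)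
    (hK : 2 ≤ K) (c : ℤ → ℂ) (h0 : c 0 = 0) (h : ∀ x, ‖poly D c x‖ ≤ 1) :
    ent μ K ≤ (1 - ‖∫ x, poly D c x ∂μ‖) * (K * Real.log 2) +
      20 * (1 + Real.log D) * (K / Real.log K) := by
  have hK0 : (0 : ℝ) < K := by positivity
  have hlK : 0 < Real.log K := Real.log_pos (by exact_mod_cast hK)
  have hd0 : 0 ≤ Real.log D := Real.log_nonneg (by exact_mod_cast hD)
  have key := numbers (H := ent μ K) D K hD hK ‖∫ x, poly D c x ∂μ‖ 2 (norm_nonneg _)
    (norm_integral_poly_le D c h) (by norm_num) (ent_le_trivial K) (by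
      intro u k hu hk
      refine core D (Nat.log 2 K / 2) u k K hu hk _ fun i => ?_
      have hr : (0 : ℝ) ≤ (Nat.log 2 K / 2 : ℕ) * Real.log 2 :=
        mul_nonneg (Nat.cast_nonneg _) (Real.log_nonneg (by norm_num))
      have hmean := le_integral_avg hμ D (Nat.log 2 K / 2) i c
      have hca : Continuous fun x : Tor => ‖avg D c (Nat.log 2 K / 2) ((2 ^ i : ℕ) • x)‖ :=
        ((continuous_avg D c _).comp (continuous_const_smul _)).norm
      rw [← integral_neg]
      calc ∫ x, -Real.log (Q D (Nat.log 2 K / 2) ((2 ^ i : ℕ) • x)) ∂μ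
          ≤ ∫ x, ((1 - ‖avg D c (Nat.log 2 K / 2) ((2 ^ i : ℕ) • x)‖) *
              ((Nat.log 2 K / 2 : ℕ) * Real.log 2) + 2) ∂μ := by
            refine integral_mono (integrable_of_cont (continuous_logQ _ _ _)).neg ?_ fun x => ?_
            · refine integrable_of_cont ?_
              exact ((continuous_const.sub hca).mul continuous_const).add continuous_const
            · exact neg_log_Q_le D _ c h0 h _
        _ = (1 - ∫ x, ‖avg D c (Nat.log 2 K / 2) ((2 ^ i : ℕ) • x)‖ ∂μ) *
              ((Nat.log 2 K / 2 : ℕ) * Real.log 2) + 2 := by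
            rw [integral_add, integral_mul_const, integral_sub]
            · simp
            · exact integrable_const _
            · exact integrable_of_cont hca
            · exact integrable_of_cont ((continuous_const.sub hca).mul continuous_const)
            · exact integrable_const _
        _ ≤ _ := by
            gcongr)
  have hX : 0 ≤ (K : ℝ) / Real.log K := by positivity
  rcases key with h' | h'
  · exact h'
  · refine h'.trans ?_
    refine add_le_add le_rfl (mul_le_mul_of_nonneg_right ?_ hX)
    linarith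

/-- (C) -/
theorem partC {μ : Measure Tor} [IsProbabilityMeasure μ] (hμ : Inv μ) (D K : ℕ) (hD : 1 ≤ D)
    (hK : 2 ≤ K) (c : ℤ → ℂ) (h0 : c 0 = 0) (h : ∀ x, ‖poly D c x‖ ≤ 1) (ε : ℝ) (hε : 0 < ε)
    (hε1 : ε ≤ 1) :
    ent μ K ≤ μ.real {x | ‖avg D c (Nat.log 2 K / 2) x‖ < ε} * (K * Real.log 2) +
      20 * (1 + Real.log D + Real.log (1 / ε)) * (K / Real.log K) := by
  have hK0 : (0 : ℝ) < K := by positivity
  have hlK : 0 < Real.log K := Real.log_pos (by exact_mod_cast hK)
  have hd0 : 0 ≤ Real.log D := Real.log_nonneg (by exact_mod_cast hD)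
  have he0 : 0 ≤ Real.log (1 / ε) := Real.log_nonneg (by
    rw [le_div_iff₀ hε]
    linarith)
  have hl2 : Real.log 2 < 0.6931471808 := Real.log_two_lt_d9
  have hl0 : 0 < Real.log 2 := Real.log_pos (by norm_num)
  set r := Nat.log 2 K / 2 with hr
  set A : Set Tor := {x | ‖avg D c r x‖ < ε} with hA
  have hAm : MeasurableSet A := (isOpen_lt (continuous_avg D c r).norm continuous_const).measurableSet
  set θ := μ.real A with hθ
  have hθ0 : 0 ≤ θ := measureReal_nonneg
  have hθ1 : θ ≤ 1 := measureReal_le_one
  set B := Real.log 2 + 2 * Real.log (1 / ε) with hB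
  have hB0 : 0 ≤ B := by positivity
  have hr0 : (0 : ℝ) ≤ (r : ℕ) * Real.log 2 := by positivity
  have hpt : ∀ x : Tor, -Real.log (Q D r x) ≤
      A.indicator (fun _ => (r : ℝ) * Real.log 2) x + B := by
    intro x
    by_cases hx : x ∈ A
    · rw [Set.indicator_of_mem hx]
      have h1 : Real.log (1 / 2 ^ r) ≤ Real.log (Q D r x) :=
        Real.log_le_log (by positivity) (Q_ge D r x)
      rw [Real.log_div one_ne_zero (by positivity), Real.log_one, Real.log_pow, zero_sub] at h1
      linarith
    · rw [Set.indicator_of_notMem hx, zero_add]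
      have h1 : ε ≤ ‖avg D c r x‖ := not_lt.1 hx
      have h2 := norm_avg_sq_le D r c h0 h x
      have h3 : ε ^ 2 / 2 ≤ Q D r x := by
        unfold Q
        have h4 : ε ^ 2 ≤ ‖avg D c r x‖ ^ 2 := by gcongr
        have h5 : (0 : ℝ) < 1 / 2 ^ r := by positivity
        linarith
      have h6 := Real.log_le_log (by positivity) h3
      rw [Real.log_div (by positivity) (by norm_num), Real.log_pow] at h6
      have h7 : Real.log (1 / ε) = -Real.log ε := by
        rw [Real.log_div one_ne_zero hε.ne', Real.log_one, zero_sub]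
      rw [hB, h7]
      push_cast at h6
      linarith
  have key := numbers (H := ent μ K) D K hD hK (1 - θ) B (by linarith) (by linarith) hB0
    (ent_le_trivial K) (by
      intro u k hu hk
      refine core D r u k K hu hk _ fun i => ?_
      rw [integral_comp (mp_pow hμ.two i) (fun x => Real.log (Q D r x))
        ((continuous_Q D r).log fun x => (Q_pos _ _ x).ne'), ← integral_neg]
      calc ∫ x, -Real.log (Q D r x) ∂μ
          ≤ ∫ x, (A.indicator (fun _ => (r : ℝ) * Real.log 2) x + B) ∂μ := by
            refine integral_mono (integrable_of_cont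
              ((continuous_Q D r).log fun x => (Q_pos _ _ x).ne')).neg ?_ hpt
            exact ((integrable_const _).indicator hAm).add (integrable_const _)
        _ = (1 - (1 - θ)) * ((r : ℝ) * Real.log 2) + B := by
            rw [integral_add ((integrable_const _).indicator hAm) (integrable_const _),
              integral_indicator_const _ hAm]
            simp [hθ]
        _ ≤ _ := le_refl _)
  rw [sub_sub_cancel] at key
  have hX : 0 ≤ (K : ℝ) / Real.log K := by positivity
  rcases key with h' | h'
  · refine h'.trans ?_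
    refine add_le_add le_rfl (mul_le_mul_of_nonneg_right ?_ hX)
    linarith
  · refine h'.trans ?_
    refine add_le_add le_rfl (mul_le_mul_of_nonneg_right ?_ hX)
    rw [hB]
    linarith

end Helper66.ER
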